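import Pool.Agent.Lib.MP_28303a_al.TW.Lemmas

/-! # STAT: matrices with constant stabilizers -/

set_option autoImplicit false
set_option linter.unusedSectionVars false

namespace Pool.Agent.NegK.TW.H95

universe u v w

open Matrix MonoidAlgebra

section

variable {k : Type u} [Ring k] {Γ : Type u} [Group Γ] {D : Type u} [MulAction Γ D]
variable {J : Type} [Fintype J] [DecidableEq J]

/-- The relation: the pair is in the orbit `q`. -/
def rel (Γ : Type u) [Group Γ] {D : Type u} [MulAction Γ D]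
    (q : Quotient (MulAction.orbitRel Γ (D × D))) (a b : D) : Prop :=
  (Quotient.mk (MulAction.orbitRel Γ (D × D)) (a, b)) = q

theorem mk_smul (g : Γ) (a b : D) : (Quotient.mk (MulAction.orbitRel Γ (D × D)) (g • a, g • b)) =
    Quotient.mk (MulAction.orbitRel Γ (D × D)) (a, b) := by
  refine Quotient.sound ?_
  show (g • a, g • b) ∈ MulAction.orbit Γ (a, b)
  exact ⟨g, rfl⟩

theorem rel_inv (q : Quotient (MulAction.orbitRel Γ (D × D))) : Invar Γ (rel Γ q) := by
  intro g a b h
  unfold rel at *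
  rw [mk_smul, h]

theorem rel_mk {a b c c' : D} (h : rel Γ (Quotient.mk (MulAction.orbitRel Γ (D × D)) (a, b)) c c') :
    Orb Γ a b c c' := by
  have h1 : (MulAction.orbitRel Γ (D × D)).r (c, c') (a, b) := Quotient.exact h
  obtain ⟨g, hg⟩ := (show (c, c') ∈ MulAction.orbit Γ (a, b) from h1)
  exact ⟨g, congrArg Prod.fst hg, congrArg Prod.snd hg⟩

variable {R : GRel Γ D}
  (hR : ∀ a b, R.R a b → MulAction.stabilizer Γ a = MulAction.stabilizer Γ b)

include hR in
theorem rel_unique {q : Quotient (MulAction.orbitRel Γ (D × D))} {c d d' : D}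
    (h1 : R.R c d) (h2 : rel Γ q c d) (h3 : rel Γ q c d') : d = d' := by
  have h4 : rel Γ (Quotient.mk (MulAction.orbitRel Γ (D × D)) (c, d)) c d' := by
    unfold rel at *
    rw [h2, h3]
  obtain ⟨g, hg, hg'⟩ := rel_mk h4
  have h5 : g ∈ MulAction.stabilizer Γ c := hg
  rw [hR c d h1] at h5
  rw [← hg']
  exact (MulAction.mem_stabilizer_iff.1 h5).symm

include hR in
/-- One step: a part applied to a homogeneous row. -/
theorem step (dg : J → D) {μ : Matrix J J (MonoidAlgebra k Γ)} (hμ : Sup dg dg R.R μ)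
    (q : Quotient (MulAction.orbitRel Γ (D × D))) {c : D} {x : J → MonoidAlgebra k Γ}
    (hx : Spt dg {c} x) : x ᵥ* part dg dg (rel Γ q) μ = 0 ∨
      ∃ c', x ᵥ* part dg dg (rel Γ q) μ = res dg {c'} (x ᵥ* μ) := by
  have hs : Spt dg {d | R.R c d} (x ᵥ* μ) :=
    Sup.spt R.inv hμ (fun d hd d' h => by
      rw [Set.mem_singleton_iff] at hd; subst hd; exact h) hx
  rw [vecMul_part (rel_inv q) μ hx]
  by_cases hex : ∃ d, R.R c d ∧ rel Γ q c d
  · obtain ⟨d, hd, hd'⟩ := hex
    refine Or.inr ⟨d, hs.res_congr fun e he => ?_⟩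
    constructor
    · intro h
      exact (rel_unique hR hd hd' h).symm
    · intro h
      rw [Set.mem_singleton_iff] at h
      rw [h]
      exact hd'
  · refine Or.inl ?_
    push Not at hex
    rw [res_eq_zero_iff]
    intro j h hh hc
    exact hex _ (hs j h hh) hc

include hR in
theorem prod_eq (dg : J → D) {μ : Matrix J J (MonoidAlgebra k Γ)} (hμ : Sup dg dg R.R μ)
    (l : List (Matrix J J (MonoidAlgebra k Γ)))
    (hl : ∀ m ∈ l, ∃ q, m = part dg dg (rel Γ q) μ) :
    ∀ (c : D) (x : J → MonoidAlgebra k Γ), Spt dg {c} x → x ᵥ* l.prod = 0 ∨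
      ∃ cs : List D, cs.length = l.length ∧ x ᵥ* l.prod = itc dg μ cs x := by
  induction l with
  | nil =>
    intro c x _
    refine Or.inr ⟨[], rfl, ?_⟩
    rw [List.prod_nil, Matrix.vecMul_one, itc_nil]
  | cons m l ih =>
    intro c x hx
    have ih' := ih fun m' hm' => hl m' (List.mem_cons_of_mem _ hm')
    obtain ⟨q, rfl⟩ := hl m List.mem_cons_self
    rw [List.prod_cons, ← Matrix.vecMul_vecMul]
    rcases step hR dg hμ q hx with h | ⟨c', h⟩
    · left
      rw [h, Matrix.zero_vecMul]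
    · rw [h]
      rcases ih' c' _ (spt_res dg {c'} (x ᵥ* μ)) with h' | ⟨cs, h1, h2⟩
      · exact Or.inl h'
      · refine Or.inr ⟨c' :: cs, by rw [List.length_cons, h1, List.length_cons], ?_⟩
        rw [h2, itc_cons]

end

open Classical in
/-- STAT. -/
theorem stat (hE : ElimwStatement.{u}) (hL : Lett1Statement.{u}) : StatStatement.{u} := by
  intro k Γ D _ _ _ M _ χ R hR J _ _ dg hlet μ d hμ hch
  -- the pairs which occur
  let F : Finset (D × D) := Finset.univ.biUnion fun i : J => Finset.univ.biUnion fun j : J =>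
    (μ i j).coeff.support.image fun h => (dg i, h • dg j)
  have hF : ∀ i j h, (μ i j).coeff h ≠ 0 → (dg i, h • dg j) ∈ F := by
    intro i j h hh
    rw [Finset.mem_biUnion]
    refine ⟨i, Finset.mem_univ _, ?_⟩
    rw [Finset.mem_biUnion]
    exact ⟨j, Finset.mem_univ _, Finset.mem_image_of_mem _ (Finsupp.mem_support_iff.2 hh)⟩
  have hF' : ∀ p ∈ F, R.R p.1 p.2 := by
    intro p hp
    rw [Finset.mem_biUnion] at hp
    obtain ⟨i, -, hp⟩ := hp
    rw [Finset.mem_biUnion] at hp
    obtain ⟨j, -, hp⟩ := hp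
    obtain ⟨h, hh, rfl⟩ := Finset.mem_image.1 hp
    exact hμ i j h (Finsupp.mem_support_iff.1 hh)
  let Q : Finset (Quotient (MulAction.orbitRel Γ (D × D))) :=
    F.image fun p => Quotient.mk _ p
  let l : List (Matrix J J (MonoidAlgebra k Γ)) :=
    Q.toList.map fun q => part dg dg (rel Γ q) μ
  have hl : ∀ m ∈ l, ∃ q ∈ Q, m = part dg dg (rel Γ q) μ := by
    intro m hm
    obtain ⟨q, hq, rfl⟩ := List.mem_map.1 hm
    exact ⟨q, Finset.mem_toList.1 hq, rfl⟩
  have hsum : l.sum = μ := by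
    have h1 : l.sum = ∑ q ∈ Q, part dg dg (rel Γ q) μ := Finset.sum_map_toList Q _
    rw [h1]
    ext1 i j
    ext g
    rw [Matrix.sum_apply, MonoidAlgebra.coeff_sum, Finsupp.finsetSum_apply]
    by_cases hg : (μ i j).coeff g = 0
    · rw [hg]
      refine Finset.sum_eq_zero fun q _ => ?_
      by_contra hc
      exact (fil_ne hc).2 hg
    · have hq : Quotient.mk (MulAction.orbitRel Γ (D × D)) (dg i, g • dg j) ∈ Q :=
        Finset.mem_image_of_mem _ (hF i j g hg)
      rw [Finset.sum_eq_single_of_mem _ hq]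
      · exact fil_pos (show g ∈ {h : Γ | rel Γ _ (dg i) (h • dg j)} from rfl) _
      · intro q _ hne
        refine fil_neg (show g ∉ {h : Γ | rel Γ q (dg i) (h • dg j)} from fun hc => hne ?_) _
        exact hc.symm
  have hletter : ∀ m ∈ l, Letter dg R m := by
    intro m hm
    obtain ⟨q, hq, rfl⟩ := hl m hm
    obtain ⟨⟨a, b⟩, hp, rfl⟩ := Finset.mem_image.1 hq
    have hab := hF' _ hp
    refine Or.inr ⟨a, b, Relation.TransGen.single hab, hR a b hab, ?_⟩
    exact (sup_part dg dg _ μ).mono fun c c' h => rel_mk h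
  have key := hE (MonoidAlgebra k Γ) M χ J {m | Letter dg R m}
    (fun m hm m' hm' => hL k Γ D J dg R m m' hm hm') (fun m hm hn => hlet m hm hn) d l hletter
    (by
      intro l' hl' hlen
      refine ext_hom dg fun c x hx => ?_
      rw [Matrix.vecMul_zero]
      rcases prod_eq hR dg hμ l' (fun m hm => by
        obtain ⟨q, -, hq⟩ := hl m (hl' m hm)
        exact ⟨q, hq⟩) c x hx with h | ⟨cs, h1, h2⟩
      · exact h
      · rw [h2]
        exact hch cs (h1.trans hlen) x)
  rwa [hsum] at key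

end Pool.Agent.NegK.TW.H95
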