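import Pool.Agent.Lib.MP_28303a_al.TW.Graph
import Pool.Agent.Lib.MP_28303a_al.NK.H50.Ext
import Pool.Agent.Lib.MP_28303a_al.NK.H78.Lreg

/-! # VAN: vanishing of the negative K-groups -/

set_option autoImplicit false

namespace Pool.Agent.NegK.TW.H95

universe u

open Pool.Agent.NegK MonoidAlgebra

theorem surj_C {R G : Type u} [Ring R] [Group G] (h : NilLaur R G) :
    Function.Surjective (K0.map (LaurentPolynomial.C :
      MonoidAlgebra R G →+* LaurentPolynomial (MonoidAlgebra R G))) := by
  have h1 := H64.K0.surj_comp _ _ (H64.K0.surj_equiv (H64.swapEquiv R G)) h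
  have h2 : ((H64.swapEquiv R G : MonoidAlgebra (LaurentPolynomial R) G →+*
      LaurentPolynomial (MonoidAlgebra R G))).comp
      (cmap G (LaurentPolynomial.C : R →+* LaurentPolynomial R)) = LaurentPolynomial.C :=
    swp_cst
  rwa [h2] at h1

/-- VAN. -/
theorem van : VanStatement.{u} := by
  intro G _ hG n
  induction n with
  | zero =>
    intro R _ hR
    have h2 := surj_C (hG R hR).2
    have h3 : (LaurentPolynomial.C : MonoidAlgebra R G →+* LaurentPolynomial (MonoidAlgebra R G)) =
        (posMap (MonoidAlgebra R G)).comp Polynomial.C := by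
      refine RingHom.ext fun r => ?_
      exact (Polynomial.toLaurent_C r).symm
    rw [h3] at h2
    show Subsingleton (K0 (LaurentPolynomial (MonoidAlgebra R G)) ⧸
      K0Fun.polySub (MonoidAlgebra R G))
    have h4 : K0Fun.polySub (MonoidAlgebra R G) = ⊤ := by
      rw [eq_top_iff]
      rintro z -
      obtain ⟨y, hy⟩ := h2 z
      have h5 := K0Fun.hom_comp (posMap (MonoidAlgebra R G)) (Polynomial.C :
        MonoidAlgebra R G →+* Polynomial (MonoidAlgebra R G))
      refine AddSubgroup.mem_sup_left ⟨K0.map (Polynomial.C :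
        MonoidAlgebra R G →+* Polynomial (MonoidAlgebra R G)) y, ?_⟩
      exact (DFunLike.congr_fun h5 y).symm.trans hy
    rw [h4]
    exact QuotientAddGroup.subsingleton_quotient_top
  | succ n ih =>
    intro R _ hR
    have h1 : Subsingleton (KNeg (n + 1) (MonoidAlgebra (LaurentPolynomial R) G)) :=
      ih (LaurentPolynomial R) (H78.lreg H50.ext R hR)
    have h2 : Subsingleton (KNeg (n + 1) (LaurentPolynomial (MonoidAlgebra R G))) :=
      (KNegFun (n + 1)).subsingleton_congr (H64.swapEquiv R G).symm h1
    show Subsingleton (KNeg (n + 1) (LaurentPolynomial (MonoidAlgebra R G)) ⧸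
      (KNegFun (n + 1)).polySub (MonoidAlgebra R G))
    exact Quot.Subsingleton

end Pool.Agent.NegK.TW.H95
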